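import Mathlib
import Pool.Agent.V1282.LadderChain

/-!
# The greedy random walk on the ladder is recurrent
-/

namespace Pool.Agent.Results.MP_1d885b_pr.LadderRecurrent

open MeasureTheory Filter Topology
open scoped ENNReal

/-- The ladder `ℤ × ℤ₂`: `(n, i)` is joined to `(n + 1, i)` and `(n, 0)` to `(n, 1)`. -/
def ladder : SimpleGraph (ℤ × Bool) where
  Adj p q := (p.2 = q.2 ∧ (q.1 = p.1 + 1 ∨ p.1 = q.1 + 1)) ∨ (p.1 = q.1 ∧ p.2 ≠ q.2)
  symm := ⟨by
    rintro p q (⟨h1, h2 | h2⟩ | ⟨h1, h2⟩)
    · exact Or.inl ⟨h1.symm, Or.inr h2⟩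
    · exact Or.inl ⟨h1.symm, Or.inl h2⟩
    · exact Or.inr ⟨h1.symm, Ne.symm h2⟩⟩
  loopless := ⟨by
    rintro p (⟨_, h2 | h2⟩ | ⟨_, h2⟩)
    · omega
    · omega
    · exact h2 rfl⟩

section defs

variable {V : Type*}

/-- The edges traversed by the path `x` before time `t`. -/
def visited (x : ℕ → V) (t : ℕ) : Set (Sym2 V) := {e | ∃ s < t, e = s(x s, x (s + 1))}

/-- The neighbours of `x t` that are joined to `x t` by an edge not yet visited at time `t`. -/
def fresh (G : SimpleGraph V) (x : ℕ → V) (t : ℕ) : Set V :=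
  {y | G.Adj (x t) y ∧ s(x t, y) ∉ visited x t}

open Classical in
/-- The set from which the greedy random walk picks its next position uniformly at random. -/
def options (G : SimpleGraph V) (x : ℕ → V) (t : ℕ) : Set V :=
  if (fresh G x t).Nonempty then fresh G x t else {y | G.Adj (x t) y}

open Classical in
/-- `X` is a greedy random walk on `G` started at `o`, under the probability measure `P`. -/
structure IsGreedyWalk (G : SimpleGraph V) (o : V) {Ω : Type*} [MeasurableSpace Ω]
    (P : Measure Ω) (X : ℕ → Ω → V) : Prop where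
  meas : ∀ t v, MeasurableSet {ω | X t ω = v}
  start : ∀ᵐ ω ∂P, X 0 ω = o
  step : ∀ (t : ℕ) (x : ℕ → V) (y : V),
    P {ω | (∀ s ≤ t, X s ω = x s) ∧ X (t + 1) ω = y} =
      P {ω | ∀ s ≤ t, X s ω = x s} *
        (if y ∈ options G x t then ((options G x t).ncard : ℝ≥0∞)⁻¹ else 0)

end defs

open Pool.Agent.V1282.Ladder

theorem mem_nbrs (v y : ℤ × Bool) : y ∈ nbrs v ↔ ladder.Adj v y := by
  obtain ⟨a, i⟩ := v
  obtain ⟨b, j⟩ := y
  simp only [nbrs, Finset.mem_insert, Finset.mem_singleton, Prod.mk.injEq, ladder]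
  constructor
  · rintro (⟨h1, h2⟩ | ⟨h1, h2⟩ | ⟨h1, h2⟩)
    · exact Or.inl ⟨h2.symm, Or.inl h1⟩
    · exact Or.inl ⟨h2.symm, Or.inr (by omega)⟩
    · refine Or.inr ⟨h1.symm, ?_⟩
      rw [h2]; simp
  · rintro (⟨h1, h2 | h2⟩ | ⟨h1, h2⟩)
    · exact Or.inl ⟨h2, h1.symm⟩
    · exact Or.inr (Or.inl ⟨by omega, h1.symm⟩)
    · refine Or.inr (Or.inr ⟨h1.symm, ?_⟩)
      cases i <;> cases j <;> simp_all

theorem options_eq (x : ℕ → ℤ × Bool) (t : ℕ) :
    options ladder x t = (opt (x t, visited x t) : Set (ℤ × Bool)) := by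
  have hf : fresh ladder x t = (fr (x t, visited x t) : Set (ℤ × Bool)) := by
    ext y
    simp only [fresh, fr, Finset.coe_filter, mem_nbrs, Set.mem_ofPred_eq]
  unfold options opt
  rw [hf]
  by_cases h : (fr (x t, visited x t)).Nonempty
  · rw [if_pos h, if_pos (by simpa using h)]
  · rw [if_neg h, if_neg (by simpa using h)]
    ext y
    simp only [Set.mem_ofPred_eq, Finset.mem_coe, mem_nbrs]

theorem visited_finite {V : Type*} (x : ℕ → V) (t : ℕ) : (visited x t).Finite := by
  have : visited x t = (fun s => s(x s, x (s + 1))) '' (Set.Iio t) := by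
    ext e
    simp only [visited, Set.mem_ofPred_eq, Set.mem_image, Set.mem_Iio]
    constructor
    · rintro ⟨s, h1, h2⟩; exact ⟨s, h1, h2.symm⟩
    · rintro ⟨s, h1, h2⟩; exact ⟨s, h1, h2.symm⟩
  rw [this]
  exact (Set.finite_Iio t).image _

theorem visited_update {V : Type*} (x : ℕ → V) (t : ℕ) (y : V) :
    visited (Function.update x (t + 1) y) (t + 1) = insert s(x t, y) (visited x t) := by
  ext e
  simp only [visited, Set.mem_ofPred_eq, Set.mem_insert_iff]
  constructor
  · rintro ⟨s, h1, h2⟩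
    by_cases hs : s = t
    · subst hs
      left
      rw [h2, Function.update_of_ne (by omega), Function.update_self]
    · right
      refine ⟨s, by omega, ?_⟩
      rw [h2, Function.update_of_ne (by omega), Function.update_of_ne (by omega)]
  · rintro (h | ⟨s, h1, h2⟩)
    · refine ⟨t, by omega, ?_⟩
      rw [h, Function.update_of_ne (by omega), Function.update_self]
    · refine ⟨s, by omega, ?_⟩
      rw [h2, Function.update_of_ne (by omega), Function.update_of_ne (by omega)]

/-! ### from the chain to the process -/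

section process

variable {Ω : Type*} [MeasurableSpace Ω] {P : Measure Ω}
  {X : ℕ → Ω → ℤ × Bool} {o : ℤ × Bool}

theorem meas_hist (hm : ∀ t v, MeasurableSet {ω | X t ω = v}) (t : ℕ) (x : ℕ → ℤ × Bool) :
    MeasurableSet {ω | ∀ s ≤ t, X s ω = x s} := by
  have : {ω | ∀ s ≤ t, X s ω = x s} = ⋂ s ∈ Set.Iic t, {ω | X s ω = x s} := by
    ext ω; simp
  rw [this]
  exact MeasurableSet.biInter (Set.to_countable _) fun s _ => hm s (x s)

theorem meas_avoid (hm : ∀ t v, MeasurableSet {ω | X t ω = v}) (o : ℤ × Bool) (t N : ℕ) :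
    MeasurableSet {ω | ∀ r, t ≤ r → r ≤ t + N → X r ω ≠ o} := by
  have : {ω | ∀ r, t ≤ r → r ≤ t + N → X r ω ≠ o} = ⋂ r ∈ Set.Icc t (t + N), {ω | X r ω = o}ᶜ := by
    ext ω; simp
  rw [this]
  exact MeasurableSet.biInter (Set.to_countable _) fun s _ => (hm s o).compl

theorem prob_avoid (hX : IsGreedyWalk ladder o P X) (v : ℤ × Bool) :
    ∀ (N t : ℕ) (x : ℕ → ℤ × Bool),
      P ({ω | ∀ s ≤ t, X s ω = x s} ∩ {ω | ∀ r, t ≤ r → r ≤ t + N → X r ω ≠ v}) =
        P {ω | ∀ s ≤ t, X s ω = x s} * ENNReal.ofReal (u {v} N (x t, visited x t)) := by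
  intro N
  induction N with
  | zero =>
    intro t x
    by_cases hv : x t = v
    · have e : {ω | ∀ s ≤ t, X s ω = x s} ∩ {ω | ∀ r, t ≤ r → r ≤ t + 0 → X r ω ≠ v} = ∅ := by
        ext ω
        simp only [Set.mem_inter_iff, Set.mem_ofPred_eq, Set.mem_empty_iff_false, iff_false]
        rintro ⟨h1, h2⟩
        exact h2 t le_rfl le_rfl ((h1 t le_rfl).trans hv)
      rw [e]
      simp [u, hv]
    · have e : {ω | ∀ s ≤ t, X s ω = x s} ∩ {ω | ∀ r, t ≤ r → r ≤ t + 0 → X r ω ≠ v} =
          {ω | ∀ s ≤ t, X s ω = x s} := by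
        ext ω
        simp only [Set.mem_inter_iff, Set.mem_ofPred_eq, and_iff_left_iff_imp]
        intro h1 r hr1 hr2
        have : r = t := by omega
        subst this
        rw [h1 r le_rfl]; exact hv
      rw [e]
      simp [u, hv]
  | succ N ih =>
    intro t x
    by_cases hv : x t = v
    · have e : {ω | ∀ s ≤ t, X s ω = x s} ∩
          {ω | ∀ r, t ≤ r → r ≤ t + (N + 1) → X r ω ≠ v} = ∅ := by
        ext ω
        simp only [Set.mem_inter_iff, Set.mem_ofPred_eq, Set.mem_empty_iff_false, iff_false]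
        rintro ⟨h1, h2⟩
        exact h2 t le_rfl (by omega) ((h1 t le_rfl).trans hv)
      rw [e]
      simp [u, hv]
    · have hu : u {v} (N + 1) (x t, visited x t) = avg (u {v} N) (x t, visited x t) := by
        rw [u]; simp [hv]
      set H := {ω | ∀ s ≤ t, X s ω = x s} with hH
      set s0 : St := (x t, visited x t) with hs0
      have e : H ∩ {ω | ∀ r, t ≤ r → r ≤ t + (N + 1) → X r ω ≠ v} =
          ⋃ y : ℤ × Bool, {ω | ∀ s ≤ t + 1, X s ω = Function.update x (t + 1) y s} ∩
            {ω | ∀ r, t + 1 ≤ r → r ≤ t + 1 + N → X r ω ≠ v} := by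
        ext ω
        simp only [Set.mem_inter_iff, Set.mem_ofPred_eq, Set.mem_iUnion, hH]
        constructor
        · rintro ⟨h1, h2⟩
          refine ⟨X (t + 1) ω, ?_, fun r hr1 hr2 => h2 r (by omega) (by omega)⟩
          intro s hs
          by_cases hst : s = t + 1
          · subst hst; rw [Function.update_self]
          · rw [Function.update_of_ne hst]; exact h1 s (by omega)
        · rintro ⟨y, h1, h2⟩
          refine ⟨fun s hs => ?_, fun r hr1 hr2 => ?_⟩
          · have := h1 s (by omega)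
            rwa [Function.update_of_ne (by omega)] at this
          · by_cases hrt : r = t
            · have := h1 t (by omega)
              rw [Function.update_of_ne (by omega)] at this
              rw [hrt, this]; exact hv
            · exact h2 r (by omega) (by omega)
      have hm1 : ∀ y : ℤ × Bool, MeasurableSet
          ({ω | ∀ s ≤ t + 1, X s ω = Function.update x (t + 1) y s} ∩
            {ω | ∀ r, t + 1 ≤ r → r ≤ t + 1 + N → X r ω ≠ v}) := fun y =>
        (meas_hist hX.meas _ _).inter (meas_avoid hX.meas _ _ _)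
      have hdisj : Pairwise (Function.onFun Disjoint fun y : ℤ × Bool =>
          {ω | ∀ s ≤ t + 1, X s ω = Function.update x (t + 1) y s} ∩
            {ω | ∀ r, t + 1 ≤ r → r ≤ t + 1 + N → X r ω ≠ v}) := by
        intro y y' hyy
        rw [Function.onFun, Set.disjoint_left]
        rintro ω ⟨h1, _⟩ ⟨h2, _⟩
        apply hyy
        have a1 := h1 (t + 1) le_rfl
        have a2 := h2 (t + 1) le_rfl
        rw [Function.update_self] at a1 a2
        rw [← a1, ← a2]
      have hterm : ∀ y : ℤ × Bool,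
          P ({ω | ∀ s ≤ t + 1, X s ω = Function.update x (t + 1) y s} ∩
            {ω | ∀ r, t + 1 ≤ r → r ≤ t + 1 + N → X r ω ≠ v}) =
          if y ∈ opt s0 then P H * (((opt s0).card : ℝ≥0∞)⁻¹ *
            ENNReal.ofReal (u {v} N (nx s0 y))) else 0 := by
        intro y
        rw [ih (t + 1) (Function.update x (t + 1) y)]
        have e1 : {ω | ∀ s ≤ t + 1, X s ω = Function.update x (t + 1) y s} =
            {ω | (∀ s ≤ t, X s ω = x s) ∧ X (t + 1) ω = y} := by
          ext ω
          simp only [Set.mem_ofPred_eq]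
          constructor
          · intro h
            refine ⟨fun s hs => ?_, ?_⟩
            · have := h s (by omega)
              rwa [Function.update_of_ne (by omega)] at this
            · have := h (t + 1) le_rfl
              rwa [Function.update_self] at this
          · rintro ⟨h1, h2⟩ s hs
            by_cases hst : s = t + 1
            · subst hst; rw [Function.update_self]; exact h2
            · rw [Function.update_of_ne hst]; exact h1 s (by omega)
        rw [e1, hX.step t x y, options_eq, visited_update, Function.update_self,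
          Set.ncard_coe_finset]
        simp only [Finset.mem_coe]
        by_cases hy : y ∈ opt s0
        · rw [if_pos hy, if_pos hy, mul_assoc]; rfl
        · rw [if_neg hy, if_neg hy]; simp
      rw [e, measure_iUnion hdisj hm1]
      simp_rw [hterm]
      rw [tsum_eq_sum (s := opt s0) (fun y hy => by rw [if_neg hy]),
        Finset.sum_congr rfl (fun y hy => if_pos hy), ← Finset.mul_sum, ← Finset.mul_sum, hu]
      congr 1
      unfold avg
      rw [ENNReal.ofReal_div_of_pos (card_pos s0),
        ENNReal.ofReal_sum_of_nonneg (fun y _ => u_nonneg _ _ _), ENNReal.ofReal_natCast,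
        ENNReal.div_eq_inv_mul]

theorem never_null [IsProbabilityMeasure P] (hX : IsGreedyWalk ladder o P X) (v : ℤ × Bool)
    (t : ℕ) : P {ω | ∀ r, t ≤ r → X r ω ≠ v} = 0 := by
  -- countably many histories
  let ext' : (Fin (t + 1) → ℤ × Bool) → ℕ → ℤ × Bool :=
    fun f s => if h : s < t + 1 then f ⟨s, h⟩ else v
  have hsub : {ω | ∀ r, t ≤ r → X r ω ≠ v} ⊆
      ⋃ f : Fin (t + 1) → ℤ × Bool,
        ({ω | ∀ s ≤ t, X s ω = ext' f s} ∩ {ω | ∀ r, t ≤ r → X r ω ≠ v}) := by
    intro ω hω
    rw [Set.mem_iUnion]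
    refine ⟨fun s => X s ω, ?_, hω⟩
    intro s hs
    simp only [ext']
    rw [dif_pos (by omega)]
  refine measure_mono_null hsub (measure_iUnion_null fun f => ?_)
  set x := ext' f
  have h1 : ∀ N : ℕ, P ({ω | ∀ s ≤ t, X s ω = x s} ∩ {ω | ∀ r, t ≤ r → X r ω ≠ v}) ≤
      ENNReal.ofReal (u {v} N (x t, visited x t)) := by
    intro N
    calc P ({ω | ∀ s ≤ t, X s ω = x s} ∩ {ω | ∀ r, t ≤ r → X r ω ≠ v})
        ≤ P ({ω | ∀ s ≤ t, X s ω = x s} ∩ {ω | ∀ r, t ≤ r → r ≤ t + N → X r ω ≠ v}) :=
          measure_mono (Set.inter_subset_inter_right _ fun ω h r h1 _ => h r h1)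
      _ = P {ω | ∀ s ≤ t, X s ω = x s} * ENNReal.ofReal (u {v} N (x t, visited x t)) :=
          prob_avoid hX v N t x
      _ ≤ 1 * ENNReal.ofReal (u {v} N (x t, visited x t)) := by
          gcongr; exact prob_le_one
      _ = _ := one_mul _
  have h2 : Tendsto (fun N => ENNReal.ofReal (u {v} N (x t, visited x t))) atTop (𝓝 0) := by
    have := u_tendsto_zero v (x t, visited x t) (visited_finite x t)
    have h3 := (ENNReal.continuous_ofReal.tendsto 0).comp this
    rw [ENNReal.ofReal_zero] at h3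
    exact h3
  exact le_antisymm (ge_of_tendsto' h2 h1) bot_le

theorem recurrent [IsProbabilityMeasure P] (hX : IsGreedyWalk ladder o P X) (v : ℤ × Bool) :
    ∀ᵐ ω ∂P, ∃ᶠ t in atTop, X t ω = v := by
  have h1 : ∀ t, ∀ᵐ ω ∂P, ∃ r, t ≤ r ∧ X r ω = v := by
    intro t
    rw [ae_iff]
    have : {ω | ¬ ∃ r, t ≤ r ∧ X r ω = v} = {ω | ∀ r, t ≤ r → X r ω ≠ v} := by
      ext ω; simp
    rw [this]
    exact never_null hX v t
  rw [← ae_all_iff] at h1
  filter_upwards [h1] with ω hω
  rw [frequently_atTop]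
  exact fun t => (hω t).imp fun r h => ⟨h.1, h.2⟩

end process

/-! ### existence of the walk -/

section existence

/-- choose an element of `F` from a number in `Fin 6` -/
noncomputable def pick (F : Finset (ℤ × Bool)) (k : Fin 6) : ℤ × Bool :=
  F.toList.getD (k.val % F.card) (0, false)

theorem count_mod {m : ℕ} (h1 : 1 ≤ m) (h3 : m ≤ 3) {r : ℕ} (hr : r < m) :
    ((Finset.univ.filter fun k : Fin 6 => k.val % m = r).card : ℕ) * m = 6 := by
  interval_cases m <;> interval_cases r <;> decide

theorem pick_mem {F : Finset (ℤ × Bool)} (h1 : 1 ≤ F.card) (k : Fin 6) : pick F k ∈ F := by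
  unfold pick
  have : k.val % F.card < F.toList.length := by
    rw [Finset.length_toList]; exact Nat.mod_lt _ h1
  rw [List.getD_eq_getElem _ _ this]
  exact Finset.mem_toList.mp (List.getElem_mem _)

theorem pick_count_aux {F : Finset (ℤ × Bool)} (h1 : 1 ≤ F.card)
    {y : ℤ × Bool} {r : ℕ} (hr : r < F.card) {hr' : r < F.toList.length}
    (hry : F.toList[r] = y) (k : Fin 6) :
    (k ∈ Finset.univ.filter fun k : Fin 6 => pick F k = y) ↔
      k ∈ Finset.univ.filter fun k : Fin 6 => k.val % F.card = r := by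
  simp only [Finset.mem_filter, Finset.mem_univ, true_and]
  have hk : k.val % F.card < F.toList.length := by
    rw [Finset.length_toList]; exact Nat.mod_lt _ h1
  unfold pick
  rw [List.getD_eq_getElem _ _ hk, ← hry]
  exact (Finset.nodup_toList F).getElem_inj_iff

open Classical in
theorem opt_card_le (s : St) : (opt s).card ≤ 3 := by
  unfold opt fr
  split_ifs
  · exact (Finset.card_filter_le _ _).trans (nbrs_card _).le
  · exact (nbrs_card _).le

theorem pick_count {F : Finset (ℤ × Bool)} (h1 : 1 ≤ F.card) (h3 : F.card ≤ 3)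
    {y : ℤ × Bool} (hy : y ∈ F) :
    (Finset.univ.filter fun k : Fin 6 => pick F k = y).card * F.card = 6 := by
  obtain ⟨r, hr, hry⟩ := List.getElem_of_mem (Finset.mem_toList.mpr hy)
  rw [Finset.length_toList] at hr
  have e : (Finset.univ.filter fun k : Fin 6 => pick F k = y) =
      Finset.univ.filter fun k : Fin 6 => k.val % F.card = r := by
    ext k
    exact pick_count_aux h1 hr hry k
  rw [e]
  exact count_mod h1 h3 hr

/-- the state of the walk driven by the numbers `ω 0, ω 1, …` -/
noncomputable def run (o : ℤ × Bool) (ω : ℕ → Fin 6) : ℕ → St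
  | 0 => (o, ∅)
  | t + 1 => nx (run o ω t) (pick (opt (run o ω t)) (ω t))

theorem run_visited (o : ℤ × Bool) (ω : ℕ → Fin 6) (t : ℕ) :
    (run o ω t).2 = visited (fun s => (run o ω s).1) t := by
  induction t with
  | zero => simp [run, visited]
  | succ t ih =>
    have : (run o ω (t + 1)).2 = insert s((run o ω t).1, (run o ω (t + 1)).1) (run o ω t).2 := rfl
    rw [this, ih]
    ext e
    simp only [visited, Set.mem_ofPred_eq, Set.mem_insert_iff]
    constructor
    · rintro (h | ⟨s, h1, h2⟩)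
      · exact ⟨t, by omega, h⟩
      · exact ⟨s, by omega, h2⟩
    · rintro ⟨s, h1, h2⟩
      by_cases hs : s = t
      · subst hs; exact Or.inl h2
      · exact Or.inr ⟨s, by omega, h2⟩

theorem run_congr (o : ℤ × Bool) {ω ω' : ℕ → Fin 6} {t : ℕ} (h : ∀ s < t, ω s = ω' s) :
    ∀ s ≤ t, run o ω s = run o ω' s := by
  intro s hs
  induction s with
  | zero => rfl
  | succ s ih =>
    rw [run, run, ih (by omega), h s (by omega)]

/-- the uniform measure on `Fin 6` -/
noncomputable def unif : Measure (Fin 6) := (PMF.uniformOfFintype (Fin 6)).toMeasure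

instance : IsProbabilityMeasure unif := by unfold unif; infer_instance

noncomputable def coin : Measure (ℕ → Fin 6) := Measure.infinitePi fun _ => unif

instance : IsProbabilityMeasure coin := by unfold coin; infer_instance

theorem unif_apply (s : Finset (Fin 6)) : unif (s : Set (Fin 6)) = (s.card : ℝ≥0∞) / 6 := by
  unfold unif
  rw [PMF.toMeasure_uniformOfFintype_apply _ (s.measurableSet)]
  simp

/-- events depending on the first `t` coordinates are measurable, and independent of `ω t` -/
theorem dep_meas {t : ℕ} {H : Set (ℕ → Fin 6)}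
    (hH : ∀ ω ω' : ℕ → Fin 6, (∀ s < t, ω s = ω' s) → (ω ∈ H → ω' ∈ H)) :
    ∃ K : Set (Finset.range t → Fin 6), MeasurableSet K ∧
      H = (fun (ω : ℕ → Fin 6) (i : Finset.range t) => ω i) ⁻¹' K := by
  refine ⟨(fun (ω : ℕ → Fin 6) (i : Finset.range t) => ω i) '' H,
    (Set.toFinite _).measurableSet, ?_⟩
  ext ω
  constructor
  · intro h; exact ⟨ω, h, rfl⟩
  · rintro ⟨ω', h1, h2⟩
    refine hH ω' ω (fun s hs => ?_) h1
    exact congrFun h2 ⟨s, Finset.mem_range.mpr hs⟩

theorem dep_measurableSet {t : ℕ} {H : Set (ℕ → Fin 6)}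
    (hH : ∀ ω ω' : ℕ → Fin 6, (∀ s < t, ω s = ω' s) → (ω ∈ H → ω' ∈ H)) : MeasurableSet H := by
  obtain ⟨K, hK, rfl⟩ := dep_meas hH
  exact hK.preimage (measurable_pi_lambda _ fun i => measurable_pi_apply _)

theorem dep_indep {t : ℕ} {H : Set (ℕ → Fin 6)}
    (hH : ∀ ω ω' : ℕ → Fin 6, (∀ s < t, ω s = ω' s) → (ω ∈ H → ω' ∈ H)) (S : Finset (Fin 6)) :
    coin (H ∩ {ω | ω t ∈ S}) = coin H * ((S.card : ℝ≥0∞) / 6) := by
  obtain ⟨K, hK, hHK⟩ := dep_meas hH
  have hi : ProbabilityTheory.iIndepFun (fun (i : ℕ) (ω : ℕ → Fin 6) => ω i) coin :=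
    ProbabilityTheory.iIndepFun_infinitePi (P := fun _ : ℕ => unif) (X := fun _ x => x)
      (fun _ => measurable_id)
  have h2 := hi.indepFun_finset (Finset.range t) {t} (by simp) (fun i => measurable_pi_apply i)
  have h3 := h2.measure_inter_preimage_eq_mul K {z | z ⟨t, by simp⟩ ∈ S} hK
    ((Set.toFinite _).measurableSet)
  have e : {ω : ℕ → Fin 6 | ω t ∈ S} =
      (fun (ω : ℕ → Fin 6) (i : ({t} : Finset ℕ)) => ω i) ⁻¹' {z | z ⟨t, by simp⟩ ∈ S} := rfl
  rw [hHK, e, h3]
  congr 1
  rw [← e, ← unif_apply]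
  have h4 : Measure.map (fun ω : ℕ → Fin 6 => ω t) coin = unif :=
    Measure.infinitePi_map_eval (fun _ : ℕ => unif) t
  rw [← h4, Measure.map_apply (measurable_pi_apply t) S.measurableSet]
  rfl

theorem exists_walk (o : ℤ × Bool) :
    IsGreedyWalk ladder o coin (fun t ω => (run o ω t).1) := by
  refine ⟨?_, ?_, ?_⟩
  · intro t v
    apply dep_measurableSet (t := t)
    intro ω ω' h hω
    simp only [Set.mem_ofPred_eq] at hω ⊢
    rw [← run_congr o h t le_rfl]; exact hω
  · exact Filter.Eventually.of_forall fun ω => rfl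
  · intro t x y
    set H : Set (ℕ → Fin 6) := {ω | ∀ s ≤ t, (run o ω s).1 = x s} with hH
    have hdep : ∀ ω ω' : ℕ → Fin 6, (∀ s < t, ω s = ω' s) → (ω ∈ H → ω' ∈ H) := by
      intro ω ω' h hω s hs
      rw [← run_congr o h s hs]; exact hω s hs
    have hst : ∀ ω ∈ H, run o ω t = (x t, visited x t) := by
      intro ω hω
      refine Prod.ext (hω t le_rfl) ?_
      rw [run_visited]
      ext e
      simp only [visited, Set.mem_ofPred_eq]
      constructor
      · rintro ⟨s, h1, h2⟩
        exact ⟨s, h1, by rw [h2, hω s (by omega), hω (s + 1) (by omega)]⟩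
      · rintro ⟨s, h1, h2⟩
        exact ⟨s, h1, by rw [h2, hω s (by omega), hω (s + 1) (by omega)]⟩
    set F := opt (x t, visited x t) with hF
    have hF1 : 1 ≤ F.card := (opt_nonempty _).card_pos
    have hF3 : F.card ≤ 3 := opt_card_le _
    have e : {ω | (∀ s ≤ t, (run o ω s).1 = x s) ∧ (run o ω (t + 1)).1 = y} =
        H ∩ {ω | ω t ∈ Finset.univ.filter fun k : Fin 6 => pick F k = y} := by
      ext ω
      simp only [Set.mem_ofPred_eq, Set.mem_inter_iff, Finset.mem_filter, Finset.mem_univ,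
        true_and]
      constructor
      · rintro ⟨h1, h2⟩
        refine ⟨h1, ?_⟩
        have : (run o ω (t + 1)).1 = pick (opt (run o ω t)) (ω t) := rfl
        rw [this, hst ω h1] at h2
        exact h2
      · rintro ⟨h1, h2⟩
        refine ⟨h1, ?_⟩
        have : (run o ω (t + 1)).1 = pick (opt (run o ω t)) (ω t) := rfl
        rw [this, hst ω h1]
        exact h2
    rw [e, dep_indep hdep, options_eq, Set.ncard_coe_finset]
    congr 1
    simp only [Finset.mem_coe]
    by_cases hy : y ∈ F
    · rw [if_pos hy]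
      have h6 := pick_count hF1 hF3 hy
      have h7 : ((Finset.univ.filter fun k : Fin 6 => pick F k = y).card : ℝ≥0∞) * F.card = 6 := by
        exact_mod_cast h6
      have hc : (F.card : ℝ≥0∞) ≠ 0 := by
        have : F.card ≠ 0 := by omega
        exact_mod_cast this
      have hc' : (F.card : ℝ≥0∞) ≠ ⊤ := ENNReal.natCast_ne_top _
      rw [← h7, ENNReal.div_eq_inv_mul]
      rw [ENNReal.mul_inv (Or.inr hc') (Or.inr hc)]
      rw [mul_assoc, mul_comm ((F.card : ℝ≥0∞)⁻¹), ← mul_assoc, ENNReal.inv_mul_cancel, one_mul]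
      · intro h0
        rw [h0] at h7; simp at h7
      · exact ENNReal.natCast_ne_top _
    · rw [if_neg hy]
      have : (Finset.univ.filter fun k : Fin 6 => pick F k = y) = ∅ := by
        rw [Finset.filter_eq_empty_iff]
        intro k _ h
        exact hy (h ▸ pick_mem hF1 k)
      rw [this]; simp

end existence

/-- **The greedy random walk on the ladder `ℤ × ℤ₂` is recurrent.**  For every starting vertex
`o` a greedy random walk started at `o` exists, and every greedy random walk started at `o` almost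
surely visits `o` (indeed, every vertex) infinitely often. -/
theorem result :
    (∀ o : ℤ × Bool, ∃ (Ω : Type) (_ : MeasurableSpace Ω) (P : Measure Ω)
        (X : ℕ → Ω → ℤ × Bool), IsProbabilityMeasure P ∧ IsGreedyWalk ladder o P X) ∧
    ∀ (Ω : Type*) [MeasurableSpace Ω] (P : Measure Ω) [IsProbabilityMeasure P]
      (o : ℤ × Bool) (X : ℕ → Ω → ℤ × Bool), IsGreedyWalk ladder o P X →
        (∀ᵐ ω ∂P, ∃ᶠ t in atTop, X t ω = o) ∧
        ∀ v : ℤ × Bool, ∀ᵐ ω ∂P, ∃ᶠ t in atTop, X t ω = v := by
  refine ⟨fun o => ⟨ℕ → Fin 6, inferInstance, coin, _, inferInstance, exists_walk o⟩, ?_⟩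
  intro Ω _ P _ o X hX
  exact ⟨recurrent hX o, recurrent hX⟩

end Pool.Agent.Results.MP_1d885b_pr.LadderRecurrent
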